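import Pool.Agent.H54.WM.Targets
import Pool.Agent.H1.HD9.Y5

/-!
# MP_e37c09_lc: module CLB of the board `wm_modules`

Countable completeness of the embeddings on a club set.
-/

open Ordinal Cardinal Order Set
open scoped ZFSet

universe u

namespace Pool.Agent.H47.WM.CLB

open _root_.HD Pool.Agent.H54.WM

/-- countably many ordinals are bounded if the cofinality is uncountable -/
theorem bnd_nat {ρ : Ordinal.{u}} (hρ : ℵ₀ < ρ.cof) (f : ℕ → Ordinal.{u}) (hf : ∀ i, f i < ρ) :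
    ∃ s < ρ, ∀ i, f i ≤ s := by
  refine ⟨⨆ i, f i, ?_, fun i => Ordinal.le_iSup f i⟩
  refine lift_iSup_lt_of_lt_cof ?_ hf
  rw [Cardinal.mk_nat, Cardinal.lift_aleph0, Ordinal.lift_uzero]
  exact hρ

/-- functions of sequences of ordinals less than `τ` are bounded -/
theorem bnd_seq {ρ τ : Ordinal.{u}} (h : τ.card ^ ℵ₀ < ρ.cof)
    (f : (ℕ → Ordinal.{u}) → Ordinal.{u}) (hf : ∀ D, f D < ρ) :
    ∃ s < ρ, ∀ D : ℕ → Ordinal.{u}, (∀ n, D n < τ) → f D ≤ s := by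
  let F : (ℕ → Iio τ) → Ordinal.{u} := fun D => f fun n => (D n).1
  refine ⟨⨆ D, F D, ?_, ?_⟩
  · refine lift_iSup_lt_of_lt_cof ?_ (fun D => hf _)
    have h1 : #(ℕ → Iio τ) = Cardinal.lift.{u + 1} (τ.card ^ ℵ₀) := by
      rw [Cardinal.mk_arrow, Cardinal.mk_Iio_ordinal, Cardinal.mk_nat, Cardinal.lift_aleph0,
        Cardinal.lift_power, Cardinal.lift_aleph0, Cardinal.lift_lift]
    rw [h1, ← lift_cof, Cardinal.lift_lift, Cardinal.lift_lt]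
    exact h
  · intro D hD
    exact Ordinal.le_iSup F fun n => ⟨D n, hD n⟩

theorem HV_mono {r s : Ordinal.{u}} (h : r ≤ s) {x : ZFSet.{u}} (hx : x ∈ HV r) : x ∈ HV s := by
  rw [mem_HV, ZFSet.mem_vonNeumann] at hx ⊢
  exact ⟨hx.1.trans_le h, hx.2⟩

theorem X (hYP : T_YP.{u}) : T_CLB.{u} := by
  classical
  intro K hK hK0 hVF hpow X hX
  obtain ⟨C0, E, hC0, hE1, hE2, hE3⟩ := hVF
  obtain ⟨C1, hC1, hC1'⟩ := hYP K hK hK0 E C0 hC0 hE1 hE2 hE3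
  have hcof : K.ord.cof = K := hK.cof_ord
  have hω : ℵ₀ < K.ord.cof := by rw [hcof]; exact hK0
  have hlim : IsSuccLimit K.ord := Cardinal.isSuccLimit_ord hK.aleph0_le
  have hpos : 0 < K.ord := hlim.bot_lt
  choose ζ hζ1 hζ2 using fun n => hE2 (X n) (hX n)
  obtain ⟨Z, hZ, hZ'⟩ := bnd_nat hω ζ hζ1
  have hρ : ∀ D : ℕ → Ordinal.{u}, ∃ r < K.ord,
      (∃ b : ℕ → ZFSet.{u}, (∀ n, b n ∈ HV K.ord) ∧ ∀ n, tup [b (n + 1), b n] ∈ E (D n)) →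
      ∃ b : ℕ → ZFSet.{u}, (∀ n, b n ∈ HV r) ∧ ∀ n, tup [b (n + 1), b n] ∈ E (D n) := by
    intro D
    by_cases h : ∃ b : ℕ → ZFSet.{u}, (∀ n, b n ∈ HV K.ord) ∧
        ∀ n, tup [b (n + 1), b n] ∈ E (D n)
    · obtain ⟨b, hb, hb'⟩ := h
      obtain ⟨r, hr, hr'⟩ := bnd_nat hω (fun n => (b n).rank) fun n =>
        ZFSet.mem_vonNeumann.1 (mem_HV.1 (hb n)).1
      refine ⟨succ r, hlim.succ_lt hr, fun _ => ⟨b, fun n => ?_, hb'⟩⟩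
      rw [mem_HV, ZFSet.mem_vonNeumann]
      exact ⟨lt_succ_of_le (hr' n), (mem_HV.1 (hb n)).2⟩
    · exact ⟨0, hpos, fun h' => absurd h' h⟩
  choose ρ hρ1 hρ2 using hρ
  have hG : ∀ τ : Ordinal.{u}, ∃ s : Ordinal.{u}, τ < K.ord → s < K.ord ∧
      ∀ D : ℕ → Ordinal.{u}, (∀ n, D n < τ) → ρ D ≤ s := by
    intro τ
    by_cases hτ : τ < K.ord
    · have hc : τ.card ^ ℵ₀ < K.ord.cof := by
        rw [hcof]
        exact hpow _ (Cardinal.lt_ord.1 hτ)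
      obtain ⟨s, hs, hs'⟩ := bnd_seq hc ρ hρ1
      exact ⟨s, fun _ => ⟨hs, hs'⟩⟩
    · exact ⟨0, fun h => absurd h hτ⟩
  choose G hG using hG
  have hG1 : ∀ x < K.ord, max (G x) Z < K.ord := fun x hx => max_lt (hG x hx).1 hZ
  refine ⟨C1 ∩ {x | 0 < x ∧ ∀ y < x, max (G y) Z < x}, All.ci K.ord _ _ hω hC1
    (All.ve K hK hK0 (fun x => max (G x) Z) hG1), ?_⟩
  rintro ξ ⟨hξ1, hξp, hξ2⟩ hξ hξc
  obtain ⟨hξlim, hξE, j, hj, hjE⟩ := hC1' ξ hξ1 hξ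
  have hZξ : Z < ξ := (le_max_right _ _).trans_lt (hξ2 0 hξp)
  refine ⟨j, ⟨hξlim, hlim, hξ.le, hj⟩, ?_, ?_⟩
  · intro b x hb hx h
    choose D hD1 hD2 using fun n => hξE (x n) (hx n)
    obtain ⟨τ0, hτ0, hτ1⟩ := bnd_nat hξc D hD1
    have hτ : succ τ0 < ξ := hξlim.succ_lt hτ0
    obtain ⟨c, hc1, hc2⟩ := hρ2 D ⟨b, hb, fun n => by
      have := h n
      rwa [hD2 n, hjE (D n) (hD1 n)] at this⟩
    have hr : ρ D ≤ ξ := ((hG (succ τ0) (hτ.trans hξ)).2 D fun n =>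
      lt_succ_of_le (hτ1 n)).trans ((le_max_left _ Z).trans (hξ2 _ hτ).le)
    have hc3 : ∀ n, c n ∈ HV ξ := fun n => HV_mono hr (hc1 n)
    refine ⟨c, hc3, fun n => ?_⟩
    rw [hD2 n, ZFSet.mem_inter]
    refine ⟨hc2 n, (mem_HV.1 (tup_mem_HV hξlim ?_)).1⟩
    intro y hy
    rw [List.mem_cons, List.mem_singleton] at hy
    rcases hy with rfl | rfl
    · exact hc3 (n + 1)
    · exact hc3 n
  · intro n
    refine ⟨E (ζ n) ∩ V_ ξ, ⟨Pool.Agent.H1.HD9.Y5.hod_iV (hE1 (ζ n)).1 ξ,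
      fun y hy => (ZFSet.mem_inter.1 hy).2⟩, ?_⟩
    rw [hjE (ζ n) ((hZ' n).trans_lt hZξ)]
    exact (hζ2 n).symm

end Pool.Agent.H47.WM.CLB
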